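import Pool.Agent.MP_12a176_ag.Six.Spec
import Pool.Agent.MP_12a176_ag.Six.Diag
import Pool.Agent.MP_12a176_ag.Six.Haar
import Pool.Agent.MP_12a176_ag.Six.Weyl
import Pool.Agent.MP_12a176_ag.Six.Rel
import Pool.Agent.MP_12a176_ag.Six.Chern
import Pool.Agent.MP_12a176_ag.Six.Avg
import Pool.Agent.MP_12a176_ag.Six.Ring
import Pool.Agent.MP_12a176_ag.Six.Frame
import Pool.Agent.MP_12a176_ag.Six.Point
import Pool.Agent.MP_12a176_ag.Six.Main

/- An inequality between the Chern numbers of a compact complex sixfold with a hyper-Kaehler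
metric. -/

set_option autoImplicit false

open scoped Manifold ContDiff
open Pool.Agent.MP_12a176_ag

namespace Pool.Agent.Results.MP_12a176_ag.Sixfold

universe u

theorem result (M : Type u) [TopologicalSpace M] [T2Space M] [CompactSpace M]
    [ChartedSpace (Fin 6 → ℂ) M] [IsManifold 𝓘(ℂ, Fin 6 → ℂ) ω M]
    (h σ : M → Matrix (Fin 6) (Fin 6) ℂ) (g : IsHKMetric h σ)
    (ρ : PartitionOfUnity M M Set.univ)
    (hρ : ρ.IsSubordinate fun p => (chartAt (Fin 6 → ℂ) p).source) :
    0 ≤ 5 * charNumber h ρ (chernPoly 6 2 ^ 3) +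
      12 * charNumber h ρ (chernPoly 6 2 * chernPoly 6 4) + 16 * charNumber h ρ (chernPoly 6 6) :=
  Six.s_main (Six.s_point (Six.s_ring (Six.s_avg Six.s_haar Six.s_weyl (Six.s_diag Six.s_spec)
    Six.s_rel Six.s_chern)) (Six.s_frame Six.s_spec)) M h σ g ρ hρ

end Pool.Agent.Results.MP_12a176_ag.Sixfold
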